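import Pool.Agent.H51.BR.Curve
import Pool.Agent.H86.AR.Base

/-!
# Distance of a function from its angular average (board br_modules, module AD2)
-/

set_option autoImplicit false

namespace Pool.Agent.H51.BR

open MeasureTheory Set FourierTransform Pool.Agent.H83.LS Pool.Agent.H54.LS Pool.Agent.H93.AR
  Pool.Agent.H83.AR Pool.Agent.H84.BR Pool.Agent.H86.AR
open scoped ENNReal NNReal SchwartzMap

/-- a block of coordinates -/
structure Blk {d m : ℕ} (σ : Fin m → Fin d) (P : EE d → EE m) (Jn : EE d → EE m → EE d)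
    (ι : EE m →L[ℝ] EE d) : Prop where
  jp : ∀ x, Jn x (P x) = x
  co : ∀ x z i, (Jn x z) (σ i) = z i
  ad : ∀ x z, Jn x z = Jn x 0 + ι z
  io : ∀ j, ι (EuclideanSpace.single j 1) = EuclideanSpace.single (σ j) 1
  mP : Measurable P
  mJ : Measurable fun q : EE d × EE m => Jn q.1 q.2

/-- the average over the directions of the block -/
noncomputable def AA {d m : ℕ} (P : EE d → EE m) (Jn : EE d → EE m → EE d) (L : ℝ)
    (f : EE d → ℂ) (x : EE d) : ℂ :=
  ∫ w : Sp m, ((zk m L (‖P x‖⁻¹ • P x) (w : EE m) : ℝ) : ℂ) *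
    f (Jn x (‖P x‖ • (w : EE m))) ∂(sg m)

section

variable {d m : ℕ} {σ : Fin m → Fin d} {P : EE d → EE m} {Jn : EE d → EE m → EE d}
  {ι : EE m →L[ℝ] EE d}

theorem sum_rpow_le {κ : Type} [Fintype κ] (a : κ → ℝ≥0∞) {p : ℝ} (hp : 1 ≤ p) :
    (∑ k, a k) ^ p ≤ (Fintype.card κ : ℝ≥0∞) ^ p * ∑ k, a k ^ p := by
  have hp0 : 0 ≤ p := by linarith
  rcases isEmpty_or_nonempty κ with h | h
  · simp only [Finset.univ_eq_empty, Finset.sum_empty, mul_zero]
    rw [ENNReal.zero_rpow_of_pos (by linarith)]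
  · obtain ⟨k₀, -, hk⟩ := Finset.exists_max_image Finset.univ a Finset.univ_nonempty
    have h1 : ∑ k, a k ≤ (Fintype.card κ : ℝ≥0∞) * a k₀ := by
      calc ∑ k, a k ≤ ∑ _k : κ, a k₀ := Finset.sum_le_sum fun k _ => hk k (Finset.mem_univ _)
        _ = _ := by rw [Finset.sum_const, Finset.card_univ, nsmul_eq_mul]
    calc (∑ k, a k) ^ p ≤ ((Fintype.card κ : ℝ≥0∞) * a k₀) ^ p := ENNReal.rpow_le_rpow h1 hp0
      _ = (Fintype.card κ : ℝ≥0∞) ^ p * a k₀ ^ p := ENNReal.mul_rpow_of_nonneg _ _ hp0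
      _ ≤ _ := by
        gcongr
        exact Finset.single_le_sum (f := fun k => a k ^ p) (fun _ _ => bot_le)
          (Finset.mem_univ k₀)

theorem dir_c (x : EE d) : ‖P x‖⁻¹ • P x = 0 ∨ ‖‖P x‖⁻¹ • P x‖ = 1 := by
  rcases eq_or_ne (P x) 0 with h | h
  · left
    rw [h, smul_zero]
  · right
    exact norm_unt h

theorem eta_zero {s : ℝ} (h : 2 ≤ s) : eta0 s = 0 :=
  Real.smoothTransition.zero_of_nonpos (by linarith)

theorem bump_supp {L : ℝ} (hL : 1 ≤ L) {y : EE m} (h : bump m L y ≠ 0) : ‖y‖ ≤ 1 / (2 * L) := by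
  by_contra hc
  rw [not_le] at hc
  apply h
  unfold bump
  rw [eta_zero, mul_zero]
  rw [div_lt_iff₀ (by linarith)] at hc
  nlinarith

theorem rotd_cont {f : 𝓢(EE d, ℂ)} (i j : Fin d) : Continuous (rotd i j f) := by
  unfold rotd
  have h1 : Continuous (fderiv ℝ f) := (f.smooth 1).continuous_fderiv (by norm_num)
  have h2 : ∀ i : Fin d, Continuous fun x : EE d => ((x i : ℝ) : ℂ) := by
    intro i
    fun_prop
  exact ((h2 i).mul (h1.clm_apply continuous_const)).sub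
    ((h2 j).mul (h1.clm_apply continuous_const))

theorem rotd_bdd (f : 𝓢(EE d, ℂ)) (i j : Fin d) : ∃ A : ℝ, ∀ x, ‖rotd i j f x‖ ≤ A := by
  obtain ⟨C, hC⟩ := f.decay 1 1
  refine ⟨C + C, fun x => ?_⟩
  have h : ∀ i j : Fin d,
      ‖((x i : ℝ) : ℂ) * fderiv ℝ f x (EuclideanSpace.single j 1)‖ ≤ C := by
    intro i j
    rw [norm_mul, Complex.norm_real]
    have h1 : ‖x i‖ ≤ ‖x‖ := PiLp.norm_apply_le x i
    have h2 : ‖fderiv ℝ f x (EuclideanSpace.single j 1)‖ ≤ ‖fderiv ℝ f x‖ := by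
      refine ((fderiv ℝ f x).le_opNorm _).trans ?_
      rw [PiLp.norm_single, norm_one, mul_one]
    have h3 := hC.2 x
    rw [pow_one, norm_iteratedFDeriv_one] at h3
    exact (mul_le_mul h1 h2 (norm_nonneg _) (norm_nonneg _)).trans h3
  exact (norm_sub_le _ _).trans (add_le_add (h i j) (h j i))

/-- the point of the sphere of the block, moved by `y` -/
noncomputable def mv (P : EE d → EE m) (Jn : EE d → EE m → EE d) (x : EE d) (s : ℝ) (y : EE m) :
    EE d := Jn x (‖P x‖ • unt (‖P x‖⁻¹ • P x + s • y))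

theorem meas_unt : Measurable (unt : EE m → EE m) := by
  unfold unt
  exact (measurable_norm.inv).smul measurable_id

theorem meas_mv (B : Blk σ P Jn ι) :
    Measurable fun q : EE d × (ℝ × EE m) => mv P Jn q.1 q.2.1 q.2.2 := by
  have h1 : Measurable fun q : EE d × (ℝ × EE m) => ‖P q.1‖ :=
    (B.mP.comp measurable_fst).norm
  have h2 : Measurable fun q : EE d × (ℝ × EE m) =>
      ‖P q.1‖⁻¹ • P q.1 + q.2.1 • q.2.2 :=
    (h1.inv.smul (B.mP.comp measurable_fst)).add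
      ((measurable_fst.comp measurable_snd).smul (measurable_snd.comp measurable_snd))
  have h3 := h1.smul (meas_unt.comp h2)
  exact B.mJ.comp (measurable_fst.prodMk h3)

/-- the increment along an arc -/
theorem arc_le (B : Blk σ P Jn ι) (f : 𝓢(EE d, ℂ)) {L : ℝ} (hL : 1 ≤ L) {x : EE d}
    (hx : P x ≠ 0) {y : EE m} (hy : ‖y‖ ≤ 1 / (2 * L)) :
    ‖f x - f (mv P Jn x 1 y)‖ₑ ≤ ENNReal.ofReal (1 / L) *
      ∫⁻ s in Ioc (0 : ℝ) 1, ∑ k : Fin m × Fin m, ‖rotd (σ k.1) (σ k.2) f (mv P Jn x s y)‖ₑ := by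
  have hr : 0 < ‖P x‖ := norm_pos_iff.2 hx
  set u : EE m := ‖P x‖⁻¹ • P x with hu
  have hu1 : ‖u‖ = 1 := norm_unt hx
  set φ : ℝ → ℂ := fun s => f (Jn x 0 + ι (‖P x‖ • unt (u + s • y))) with hφ
  have hφ' : ∀ s, φ s = f (mv P Jn x s y) := by
    intro s
    rw [hφ, mv, B.ad x (‖P x‖ • unt (‖P x‖⁻¹ • P x + s • y))]
  have h0 : φ 0 = f x := by
    rw [hφ' 0, mv, ← hu, zero_smul, add_zero, unt, hu1, inv_one, one_smul, hu, smul_smul,
      mul_inv_cancel₀ hr.ne', one_smul, B.jp]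
  have hcd : ContDiffOn ℝ 1 φ (Icc 0 1) := by
    intro s hs
    have hv : u + s • y ≠ 0 := by
      rw [← norm_pos_iff]
      have := arc_norm hu1 hL hy hs
      linarith
    have c1 : ContDiffAt ℝ 1 (fun s : ℝ => u + s • y) s := by fun_prop
    have c2 : ContDiffAt ℝ 1 (fun s : ℝ => ‖u + s • y‖) s := c1.norm ℝ hv
    have c3 : ContDiffAt ℝ 1 (fun s : ℝ => unt (u + s • y)) s := by
      unfold unt
      exact (c2.inv (norm_ne_zero_iff.2 hv)).smul c1
    have c35 : ContDiffAt ℝ 1 (fun s : ℝ => ‖P x‖ • unt (u + s • y)) s :=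
      c3.const_smul ‖P x‖
    have c4 : ContDiffAt ℝ 1 (fun s : ℝ => Jn x 0 + ι (‖P x‖ • unt (u + s • y))) s :=
      contDiffAt_const.add (ι.contDiff.contDiffAt.comp s c35)
    exact ((f.smooth 1).contDiffAt.comp s c4).contDiffWithinAt
  have h1 := enorm_sub_le_lintegral_deriv_of_contDiffOn_Icc hcd zero_le_one
  rw [hφ' 1, h0, ← restrict_Ioc_eq_restrict_Icc] at h1
  rw [← enorm_neg, neg_sub]
  refine h1.trans ?_
  rw [← lintegral_const_mul' _ _ ENNReal.ofReal_ne_top]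
  refine setLIntegral_mono' measurableSet_Ioc fun s hs => ?_
  have hs' : s ∈ Icc (0 : ℝ) 1 := ⟨hs.1.le, hs.2⟩
  obtain ⟨c', hc', hin, hcL⟩ := arc_deriv hu1 hL hy hs'
  have hv : u + s • y ≠ 0 := by
    rw [← norm_pos_iff]
    have := arc_norm hu1 hL hy hs'
    linarith
  have hX : HasDerivAt (fun s : ℝ => Jn x 0 + ι (‖P x‖ • unt (u + s • y)))
      (ι (‖P x‖ • c')) s :=
    (ι.hasFDerivAt.comp_hasDerivAt s (hc'.const_smul ‖P x‖)).const_add _
  have hf : HasFDerivAt f (fderiv ℝ f (Jn x 0 + ι (‖P x‖ • unt (u + s • y))))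
      (Jn x 0 + ι (‖P x‖ • unt (u + s • y))) :=
    ((f.smooth 1).differentiable (by norm_num)).differentiableAt.hasFDerivAt
  have hd : HasDerivAt φ (fderiv ℝ f (Jn x 0 + ι (‖P x‖ • unt (u + s • y))) (ι (‖P x‖ • c'))) s :=
    hf.comp_hasDerivAt s hX
  rw [hd.deriv]
  have hmv : Jn x 0 + ι (‖P x‖ • unt (u + s • y)) = mv P Jn x s y := by
    rw [mv, B.ad x (‖P x‖ • unt (‖P x‖⁻¹ • P x + s • y))]
  rw [hmv]
  have h2 := deriv_rot_le σ ι B.io f (mv P Jn x s y) ‖P x‖ L (unt (u + s • y)) c'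
    (fun i => by
      rw [mv, B.co]
      simp [hu])
    (norm_unt hv) hin hcL
  rw [← ofReal_norm]
  refine (ENNReal.ofReal_le_ofReal h2).trans ?_
  rw [ENNReal.ofReal_mul (by positivity)]
  refine mul_le_mul_right ?_ _
  rw [← Fintype.sum_prod_type' (f := fun i j => ‖rotd (σ i) (σ j) f (mv P Jn x s y)‖),
    ENNReal.ofReal_sum_of_nonneg (fun _ _ => norm_nonneg _)]
  refine Finset.sum_le_sum fun k _ => ?_
  rw [ofReal_norm]

theorem meas_pt (B : Blk σ P Jn ι) (f : EE d → ℂ) (hf : Measurable f) (x : EE d) :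
    Measurable fun v : EE m => f (Jn x (‖P x‖ • v)) := by
  have h1 : Measurable fun v : EE m => (x, ‖P x‖ • v) :=
    measurable_const.prodMk (measurable_id.const_smul ‖P x‖)
  exact hf.comp (B.mJ.comp h1)

theorem AA_sub_le (hZN : T_ZN) (hZB : T_ZB) (hZP : T_ZP) (B : Blk σ P Jn ι) (hm : 1 ≤ m)
    (f : EE d → ℂ) (hf : Measurable f) {A : ℝ} (hA : ∀ x, ‖f x‖ ≤ A) {L : ℝ} (hL : 1 ≤ L)
    (x : EE d) : ‖f x - AA P Jn L f x‖ₑ ≤
      ∫⁻ y, ENNReal.ofReal (bump m L y) * ‖f x - f (mv P Jn x 1 y)‖ₑ := by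
  set u : EE m := ‖P x‖⁻¹ • P x with hu
  have hzi := zk_integrable hZN hZB hm hL (dir_c (P := P) x)
  have hm1 : Measurable fun w : Sp m => f (Jn x (‖P x‖ • (w : EE m))) :=
    (meas_pt B f hf x).comp measurable_subtype_coe
  have i1 : Integrable (fun w : Sp m => ((zk m L u (w : EE m) : ℝ) : ℂ) * f x) (sg m) :=
    hzi.ofReal.mul_const _
  have i2 : Integrable (fun w : Sp m => ((zk m L u (w : EE m) : ℝ) : ℂ) *
      f (Jn x (‖P x‖ • (w : EE m)))) (sg m) :=
    Integrable.mul_bdd (c := A) hzi.ofReal hm1.aestronglyMeasurable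
      (Filter.Eventually.of_forall fun w => hA _)
  have e1 : f x - AA P Jn L f x = ∫ w : Sp m, ((zk m L u (w : EE m) : ℝ) : ℂ) *
      (f x - f (Jn x (‖P x‖ • (w : EE m)))) ∂(sg m) := by
    have h1 : ∫ w : Sp m, ((zk m L u (w : EE m) : ℝ) : ℂ) * f x ∂(sg m) = f x := by
      rw [integral_mul_const, zk_integral_c hZN hZB hm hL (dir_c (P := P) x), one_mul]
    rw [AA, ← hu]
    conv_lhs => rw [← h1]
    rw [← integral_sub i1 i2]
    exact integral_congr_ae (Filter.Eventually.of_forall fun w => by simp only []; ring)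
  have hh : Measurable fun v : EE m => ‖f x - f (Jn x (‖P x‖ • v))‖ₑ :=
    (measurable_const.sub (meas_pt B f hf x)).enorm
  have hzp := hZP m L u _ hm (by linarith) hh
  rw [e1]
  refine (enorm_integral_le_lintegral_enorm _).trans ?_
  have e2 : ∀ y : EE m, mv P Jn x 1 y = Jn x (‖P x‖ • (‖u + y‖⁻¹ • (u + y))) := by
    intro y
    rw [mv, one_smul, ← hu, unt]
  simp only [e2]
  rw [← hzp]
  refine lintegral_mono fun w => ?_
  rw [enorm_mul]
  refine mul_le_mul_left ?_ _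
  rw [← ofReal_norm, Complex.norm_real, Real.norm_of_nonneg (zk_nonneg hZB hm hL _ _)]

/-- the probability measure -/
noncomputable def pm (m : ℕ) (L : ℝ) : Measure (ℝ × EE m) :=
  (volume.restrict (Ioc (0 : ℝ) 1)).prod
    ((volume : Measure (EE m)).withDensity fun y => ENNReal.ofReal (bump m L y))

theorem meas_bump (L : ℝ) : Measurable fun y : EE m => ENNReal.ofReal (bump m L y) := by
  unfold bump eta0
  have h : Continuous Real.smoothTransition := Real.smoothTransition.continuous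
  have h2 : Continuous fun y : EE m => bc m * L ^ m *
      Real.smoothTransition (2 - 4 * (L * ‖y‖)) := by fun_prop
  exact h2.measurable.ennreal_ofReal

theorem bump_one (hZN : T_ZN) (hZP : T_ZP) (hm : 1 ≤ m) {L : ℝ} (hL : 1 ≤ L) :
    ∫⁻ y : EE m, ENNReal.ofReal (bump m L y) = 1 := by
  have h1 := hZP m L 0 (fun _ => 1) hm (by linarith) measurable_const
  simp only [mul_one] at h1
  rw [← h1, hZN m L 0 hm hL (Or.inl rfl)]

theorem pm_univ (hZN : T_ZN) (hZP : T_ZP) (hm : 1 ≤ m) {L : ℝ} (hL : 1 ≤ L) :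
    pm m L univ = 1 := by
  have : IsFiniteMeasure ((volume : Measure (EE m)).withDensity
      fun y => ENNReal.ofReal (bump m L y)) := by
    refine ⟨?_⟩
    rw [withDensity_apply _ MeasurableSet.univ, Measure.restrict_univ, bump_one hZN hZP hm hL]
    exact ENNReal.one_lt_top
  rw [pm, ← univ_prod_univ, Measure.prod_prod, withDensity_apply _ MeasurableSet.univ,
    Measure.restrict_univ, bump_one hZN hZP hm hL]
  simp

/-- pointwise bound -/
theorem AA_pt (hZN : T_ZN) (hZB : T_ZB) (hZP : T_ZP) (B : Blk σ P Jn ι) (hm : 1 ≤ m)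
    (f : 𝓢(EE d, ℂ)) {L p : ℝ} (hL : 1 ≤ L) (hp : 1 ≤ p) (x : EE d) :
    ‖f x - AA P Jn L f x‖ₑ ^ p ≤ ENNReal.ofReal (L ^ (-p)) *
      ((Fintype.card (Fin m × Fin m) : ℝ≥0∞) ^ p *
      ∑ k : Fin m × Fin m, ∫⁻ q, ‖rotd (σ k.1) (σ k.2) f (mv P Jn x q.1 q.2)‖ₑ ^ p ∂(pm m L)) := by
  have hp0 : 0 ≤ p := by linarith
  have : IsFiniteMeasure ((volume : Measure (EE m)).withDensity
      fun y => ENNReal.ofReal (bump m L y)) := by
    refine ⟨?_⟩
    rw [withDensity_apply _ MeasurableSet.univ, Measure.restrict_univ, bump_one hZN hZP hm hL]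
    exact ENNReal.one_lt_top
  have hfin : IsFiniteMeasure (pm m L) := by
    refine ⟨?_⟩
    rw [pm_univ hZN hZP hm hL]
    exact ENNReal.one_lt_top
  have hmx : Measurable fun q : ℝ × EE m => mv P Jn x q.1 q.2 := by
    have h := (meas_mv B).comp ((measurable_const (a := x)).prodMk
      (measurable_id (α := ℝ × EE m)))
    exact h
  have hgk : ∀ k : Fin m × Fin m,
      Measurable fun q : ℝ × EE m => ‖rotd (σ k.1) (σ k.2) f (mv P Jn x q.1 q.2)‖ₑ := fun k =>
    ((rotd_cont (f := f) _ _).measurable.comp hmx).enorm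
  have hg : Measurable fun q : ℝ × EE m =>
      ∑ k : Fin m × Fin m, ‖rotd (σ k.1) (σ k.2) f (mv P Jn x q.1 q.2)‖ₑ :=
    Finset.measurable_sum _ fun k _ => hgk k
  have h1 : ‖f x - AA P Jn L f x‖ₑ ≤ ENNReal.ofReal (1 / L) *
      ∫⁻ q, ∑ k : Fin m × Fin m, ‖rotd (σ k.1) (σ k.2) f (mv P Jn x q.1 q.2)‖ₑ ∂(pm m L) := by
    obtain ⟨A, hA⟩ : ∃ A : ℝ, ∀ x, ‖f x‖ ≤ A := by
      obtain ⟨C, hC⟩ := f.decay 0 0
      refine ⟨C, fun x => ?_⟩
      have := hC.2 x
      simpa using this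
    have h2 := AA_sub_le hZN hZB hZP B hm f f.continuous.measurable hA hL x
    rcases eq_or_ne (P x) 0 with h0 | h0
    · have h3 : ∀ y, mv P Jn x 1 y = x := by
        intro y
        rw [mv, h0, norm_zero, zero_smul, ← h0, B.jp]
      simp only [h3, sub_self, enorm_zero, mul_zero, lintegral_zero] at h2
      exact h2.trans bot_le
    · refine h2.trans ?_
      rw [pm, lintegral_prod_symm _ hg.aemeasurable,
        lintegral_withDensity_eq_lintegral_mul _ (meas_bump L)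
          (Measurable.lintegral_prod_left' hg),
        ← lintegral_const_mul' _ _ ENNReal.ofReal_ne_top]
      refine lintegral_mono fun y => ?_
      simp only [Pi.mul_apply]
      rcases eq_or_ne (bump m L y) 0 with hb | hb
      · simp [hb]
      · rw [mul_left_comm]
        exact mul_le_mul_right (arc_le B f hL h0 (bump_supp hL hb)) _
  have h3 := ENNReal.rpow_le_rpow h1 hp0
  rw [ENNReal.mul_rpow_of_nonneg _ _ hp0] at h3
  have h4 : ENNReal.ofReal (1 / L) ^ p = ENNReal.ofReal (L ^ (-p)) := by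
    rw [ENNReal.ofReal_rpow_of_nonneg (by positivity) hp0, one_div, Real.inv_rpow (by linarith),
      Real.rpow_neg (by linarith)]
  rw [h4] at h3
  refine h3.trans (mul_le_mul_right ?_ _)
  have h5 := lint_rpow_le (pm m L) _ hg.aemeasurable p hp
  rw [pm_univ hZN hZP hm hL, ENNReal.one_rpow, one_mul] at h5
  refine h5.trans ?_
  rw [← lintegral_finsetSum _ fun k _ => (hgk k).pow_const p,
    ← lintegral_const_mul _ (Finset.measurable_sum _ fun k _ => (hgk k).pow_const p)]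
  exact lintegral_mono fun q => sum_rpow_le _ hp

/-- scaling of the bump -/
theorem bump_scale (s L : ℝ) (hs : 0 < s) (H : EE m → ℝ≥0∞) (hH : Measurable H) (u : EE m) :
    ∫⁻ y, ENNReal.ofReal (bump m L y) * H (unt (u + s • y)) =
      ∫⁻ y, ENNReal.ofReal (bump m (L / s) y) * H (unt (u + y)) := by
  have hF : Measurable fun y : EE m => ENNReal.ofReal (bump m (L / s) y) * H (unt (u + y)) :=
    (meas_bump _).mul (hH.comp (meas_unt.comp (measurable_id.const_add u)))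
  have hmap := Measure.map_addHaar_smul (volume : Measure (EE m)) hs.ne'
  have h1 : ∫⁻ y, ENNReal.ofReal (bump m (L / s) (s • y)) * H (unt (u + s • y)) =
      ENNReal.ofReal |(s ^ Module.finrank ℝ (EE m))⁻¹| *
        ∫⁻ y, ENNReal.ofReal (bump m (L / s) y) * H (unt (u + y)) := by
    have h2 := lintegral_map (μ := (volume : Measure (EE m))) hF (measurable_const_smul s)
    rw [hmap, lintegral_smul_measure] at h2
    exact h2.symm
  have hfr : Module.finrank ℝ (EE m) = m := by simp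
  rw [hfr, abs_of_pos (by positivity)] at h1
  have h3 : ∀ y : EE m, ENNReal.ofReal (bump m (L / s) (s • y)) =
      ENNReal.ofReal ((s ^ m)⁻¹) * ENNReal.ofReal (bump m L y) := by
    intro y
    rw [← ENNReal.ofReal_mul (by positivity)]
    congr 1
    unfold bump
    rw [norm_smul, Real.norm_of_nonneg hs.le]
    have e1 : L / s * (s * ‖y‖) = L * ‖y‖ := by field_simp
    rw [e1, div_pow]
    field_simp
  simp only [h3, mul_assoc] at h1
  rw [lintegral_const_mul' _ _ ENNReal.ofReal_ne_top] at h1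
  have h4 : ENNReal.ofReal ((s ^ m)⁻¹) ≠ 0 := by
    rw [Ne, ENNReal.ofReal_eq_zero, not_le]
    positivity
  exact (ENNReal.mul_right_inj h4 ENNReal.ofReal_ne_top).1 h1

/-- the average of a nonnegative function -/
theorem AA_nonneg (hZN : T_ZN) (hZB : T_ZB) (B : Blk σ P Jn ι) (hm : 1 ≤ m)
    (g : EE d → ℝ) (hg : Measurable g) (h0 : ∀ x, 0 ≤ g x) {A : ℝ} (hA : ∀ x, g x ≤ A)
    {L : ℝ} (hL : 1 ≤ L) (x : EE d) :
    ∫⁻ w : Sp m, ENNReal.ofReal (zk m L (‖P x‖⁻¹ • P x) w) *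
      ENNReal.ofReal (g (Jn x (‖P x‖ • (w : EE m)))) ∂(sg m) =
      ‖AA P Jn L (fun x => ((g x : ℝ) : ℂ)) x‖ₑ := by
  set u : EE m := ‖P x‖⁻¹ • P x with hu
  have hzi := zk_integrable hZN hZB hm hL (dir_c (P := P) x)
  have hm0 : Measurable fun v : EE m => g (Jn x (‖P x‖ • v)) := by
    have h1 : Measurable fun v : EE m => (x, ‖P x‖ • v) :=
      measurable_const.prodMk (measurable_id.const_smul ‖P x‖)
    exact hg.comp (B.mJ.comp h1)
  have hm1 : Measurable fun w : Sp m => g (Jn x (‖P x‖ • (w : EE m))) :=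
    hm0.comp measurable_subtype_coe
  have i2 : Integrable (fun w : Sp m => zk m L u (w : EE m) *
      g (Jn x (‖P x‖ • (w : EE m)))) (sg m) :=
    Integrable.mul_bdd (c := A) hzi hm1.aestronglyMeasurable
      (Filter.Eventually.of_forall fun w => by
        rw [Real.norm_of_nonneg (h0 _)]
        exact hA _)
  have hnn : 0 ≤ fun w : Sp m => zk m L u (w : EE m) * g (Jn x (‖P x‖ • (w : EE m))) :=
    fun w => mul_nonneg (zk_nonneg hZB hm hL _ _) (h0 _)
  have e1 : AA P Jn L (fun x => ((g x : ℝ) : ℂ)) x =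
      ((∫ w : Sp m, zk m L u (w : EE m) * g (Jn x (‖P x‖ • (w : EE m))) ∂(sg m) : ℝ) : ℂ) := by
    rw [AA, ← hu, ← integral_complex_ofReal]
    exact integral_congr_ae (Filter.Eventually.of_forall fun w => by simp)
  rw [e1, ← ofReal_norm, Complex.norm_real, Real.norm_of_nonneg (integral_nonneg hnn),
    ofReal_integral_eq_lintegral_ofReal i2 (Filter.Eventually.of_forall hnn)]
  refine lintegral_congr fun w => ?_
  rw [ENNReal.ofReal_mul (zk_nonneg hZB hm hL _ _)]

/-- integration of the moved function -/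
theorem mv_int (hZN : T_ZN) (hZB : T_ZB) (hZP : T_ZP) (B : Blk σ P Jn ι) (hm : 1 ≤ m)
    (hA : ∀ (g : EE d → ℂ) (L' : ℝ), 1 ≤ L' → Measurable g →
      ∫⁻ x, ‖AA P Jn L' g x‖ₑ ^ (1 : ℝ) ≤ ∫⁻ x, ‖g x‖ₑ ^ (1 : ℝ))
    (F : EE d → ℂ) (hF : Continuous F) {C : ℝ} (hC : ∀ x, ‖F x‖ ≤ C) {L p : ℝ} (hL : 1 ≤ L)
    (hp : 1 ≤ p) : ∫⁻ x, ∫⁻ q, ‖F (mv P Jn x q.1 q.2)‖ₑ ^ p ∂(pm m L) ≤ ∫⁻ x, ‖F x‖ₑ ^ p := by
  have hp0 : 0 ≤ p := by linarith
  have : IsFiniteMeasure ((volume : Measure (EE m)).withDensity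
      fun y => ENNReal.ofReal (bump m L y)) := by
    refine ⟨?_⟩
    rw [withDensity_apply _ MeasurableSet.univ, Measure.restrict_univ, bump_one hZN hZP hm hL]
    exact ENNReal.one_lt_top
  have hΦ : Measurable fun q : EE d × (ℝ × EE m) => ‖F (mv P Jn q.1 q.2.1 q.2.2)‖ₑ ^ p :=
    ((hF.measurable.comp (meas_mv B)).enorm).pow_const p
  have hΦ2 : Measurable fun q : (EE d × ℝ) × EE m => ‖F (mv P Jn q.1.1 q.1.2 q.2)‖ₑ ^ p := by
    have h : Measurable fun q : (EE d × ℝ) × EE m => (q.1.1, (q.1.2, q.2)) := by fun_prop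
    exact hΦ.comp h
  have hΨ : Measurable fun q : EE d × ℝ => ∫⁻ y, ‖F (mv P Jn q.1 q.2 y)‖ₑ ^ p
      ∂((volume : Measure (EE m)).withDensity fun y => ENNReal.ofReal (bump m L y)) :=
    hΦ2.lintegral_prod_right'
  have e1 : ∀ x, ∫⁻ q, ‖F (mv P Jn x q.1 q.2)‖ₑ ^ p ∂(pm m L) = ∫⁻ s in Ioc (0 : ℝ) 1,
      ∫⁻ y, ‖F (mv P Jn x s y)‖ₑ ^ p
        ∂((volume : Measure (EE m)).withDensity fun y => ENNReal.ofReal (bump m L y)) := by
    intro x
    have h : Measurable fun q : ℝ × EE m => ‖F (mv P Jn x q.1 q.2)‖ₑ ^ p := by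
      have := hΦ.comp ((measurable_const (a := x)).prodMk (measurable_id (α := ℝ × EE m)))
      exact this
    rw [pm, lintegral_prod _ h.aemeasurable]
  simp only [e1]
  rw [lintegral_lintegral_swap hΨ.aemeasurable]
  have key : ∀ s ∈ Ioc (0 : ℝ) 1, ∫⁻ x, ∫⁻ y, ‖F (mv P Jn x s y)‖ₑ ^ p
      ∂((volume : Measure (EE m)).withDensity fun y => ENNReal.ofReal (bump m L y)) ≤
      ∫⁻ x, ‖F x‖ₑ ^ p := by
    intro s hs
    have hLs : 1 ≤ L / s := by
      rw [le_div_iff₀ hs.1]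
      linarith [hs.2]
    set g : EE d → ℝ := fun x => ‖F x‖ ^ p with hg
    have hgm : Measurable g := hF.measurable.norm.pow_const p
    have hg0 : ∀ x, 0 ≤ g x := fun x => by positivity
    have hgA : ∀ x, g x ≤ C ^ p := fun x =>
      Real.rpow_le_rpow (norm_nonneg _) (hC x) hp0
    have hge : ∀ x, ENNReal.ofReal (g x) = ‖F x‖ₑ ^ p := by
      intro x
      rw [hg, ← ofReal_norm, ENNReal.ofReal_rpow_of_nonneg (norm_nonneg _) hp0]
    have e2 : ∀ x, ∫⁻ y, ‖F (mv P Jn x s y)‖ₑ ^ p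
        ∂((volume : Measure (EE m)).withDensity fun y => ENNReal.ofReal (bump m L y)) =
        ‖AA P Jn (L / s) (fun x => ((g x : ℝ) : ℂ)) x‖ₑ ^ (1 : ℝ) := by
      intro x
      have hH : Measurable fun v : EE m => ENNReal.ofReal (g (Jn x (‖P x‖ • v))) := by
        have h1 : Measurable fun v : EE m => (x, ‖P x‖ • v) :=
          measurable_const.prodMk (measurable_id.const_smul ‖P x‖)
        exact (hgm.comp (B.mJ.comp h1)).ennreal_ofReal
      have hmy : Measurable fun y : EE m => ‖F (mv P Jn x s y)‖ₑ ^ p := by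
        have := hΦ2.comp ((measurable_const (a := (x, s))).prodMk (measurable_id (α := EE m)))
        exact this
      rw [ENNReal.rpow_one, ← AA_nonneg hZN hZB B hm g hgm hg0 hgA hLs x,
        hZP m (L / s) _ _ hm (by linarith) hH,
        lintegral_withDensity_eq_lintegral_mul _ (meas_bump L) hmy]
      have e3 := bump_scale s L hs.1 _ hH (‖P x‖⁻¹ • P x)
      simp only [unt] at e3
      rw [← e3]
      refine lintegral_congr fun y => ?_
      simp only [Pi.mul_apply]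
      rw [hge, mv, unt]
    simp only [e2]
    refine (hA _ _ hLs (Complex.measurable_ofReal.comp hgm)).trans (le_of_eq ?_)
    refine lintegral_congr fun x => ?_
    rw [ENNReal.rpow_one, ← hge, ← ofReal_norm]
    congr 1
    simp only [Function.comp_apply]
    rw [Complex.norm_real, Real.norm_of_nonneg (hg0 x)]
  calc ∫⁻ s in Ioc (0 : ℝ) 1, ∫⁻ x, ∫⁻ y, ‖F (mv P Jn x s y)‖ₑ ^ p
        ∂((volume : Measure (EE m)).withDensity fun y => ENNReal.ofReal (bump m L y))
      ≤ ∫⁻ _s in Ioc (0 : ℝ) 1, ∫⁻ x, ‖F x‖ₑ ^ p := setLIntegral_mono' measurableSet_Ioc key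
    _ = ∫⁻ x, ‖F x‖ₑ ^ p := by simp

/-- the distance from the average -/
theorem AA_dist (hZN : T_ZN) (hZB : T_ZB) (hZP : T_ZP) (B : Blk σ P Jn ι) (hm : 1 ≤ m)
    (hA : ∀ (g : EE d → ℂ) (L' : ℝ), 1 ≤ L' → Measurable g →
      ∫⁻ x, ‖AA P Jn L' g x‖ₑ ^ (1 : ℝ) ≤ ∫⁻ x, ‖g x‖ₑ ^ (1 : ℝ))
    (f : 𝓢(EE d, ℂ)) {L p : ℝ} (hL : 1 ≤ L) (hp : 1 ≤ p) :
    ∫⁻ x, ‖f x - AA P Jn L f x‖ₑ ^ p ≤
      (Fintype.card (Fin m × Fin m) : ℝ≥0∞) ^ p * ENNReal.ofReal (L ^ (-p)) *
        ∑ i : Fin m, ∑ j : Fin m, ∫⁻ x, ‖rotd (σ i) (σ j) f x‖ₑ ^ p := by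
  have : IsFiniteMeasure ((volume : Measure (EE m)).withDensity
      fun y => ENNReal.ofReal (bump m L y)) := by
    refine ⟨?_⟩
    rw [withDensity_apply _ MeasurableSet.univ, Measure.restrict_univ, bump_one hZN hZP hm hL]
    exact ENNReal.one_lt_top
  have hfin : IsFiniteMeasure (pm m L) := by
    refine ⟨?_⟩
    rw [pm_univ hZN hZP hm hL]
    exact ENNReal.one_lt_top
  have hm' : ∀ k : Fin m × Fin m, Measurable fun x : EE d =>
      ∫⁻ q, ‖rotd (σ k.1) (σ k.2) f (mv P Jn x q.1 q.2)‖ₑ ^ p ∂(pm m L) := by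
    intro k
    have hΦ : Measurable fun q : EE d × (ℝ × EE m) =>
        ‖rotd (σ k.1) (σ k.2) f (mv P Jn q.1 q.2.1 q.2.2)‖ₑ ^ p :=
      (((rotd_cont (f := f) _ _).measurable.comp (meas_mv B)).enorm).pow_const p
    exact hΦ.lintegral_prod_right'
  have hcard : (Fintype.card (Fin m × Fin m) : ℝ≥0∞) ^ p ≠ ⊤ :=
    ENNReal.rpow_ne_top_of_nonneg (by linarith) (ENNReal.natCast_ne_top _)
  calc ∫⁻ x, ‖f x - AA P Jn L f x‖ₑ ^ p
      ≤ ∫⁻ x, ENNReal.ofReal (L ^ (-p)) * ((Fintype.card (Fin m × Fin m) : ℝ≥0∞) ^ p *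
          ∑ k : Fin m × Fin m,
            ∫⁻ q, ‖rotd (σ k.1) (σ k.2) f (mv P Jn x q.1 q.2)‖ₑ ^ p ∂(pm m L)) :=
        lintegral_mono fun x => AA_pt hZN hZB hZP B hm f hL hp x
    _ = ENNReal.ofReal (L ^ (-p)) * ((Fintype.card (Fin m × Fin m) : ℝ≥0∞) ^ p *
          ∑ k : Fin m × Fin m, ∫⁻ x,
            ∫⁻ q, ‖rotd (σ k.1) (σ k.2) f (mv P Jn x q.1 q.2)‖ₑ ^ p ∂(pm m L)) := by
        rw [lintegral_const_mul' _ _ ENNReal.ofReal_ne_top, lintegral_const_mul' _ _ hcard,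
          lintegral_finsetSum _ fun k _ => hm' k]
    _ ≤ ENNReal.ofReal (L ^ (-p)) * ((Fintype.card (Fin m × Fin m) : ℝ≥0∞) ^ p *
          ∑ k : Fin m × Fin m, ∫⁻ x, ‖rotd (σ k.1) (σ k.2) f x‖ₑ ^ p) := by
        refine mul_le_mul_right (mul_le_mul_right (Finset.sum_le_sum fun k _ => ?_) _) _
        obtain ⟨C, hC⟩ := rotd_bdd f (σ k.1) (σ k.2)
        exact mv_int hZN hZB hZP B hm hA _ (rotd_cont _ _) hC hL hp
    _ = _ := by
        rw [Fintype.sum_prod_type]
        ring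

end

/-! ### the two blocks -/

/-- the inclusion of the second block -/
noncomputable def in2 (a b : ℕ) : EE b →L[ℝ] EE (a + b) :=
  LinearMap.toContinuousLinearMap
    { toFun := fun z => jm a b 0 z
      map_add' := by
        intro z z'
        ext i
        refine Fin.addCases (fun i => ?_) (fun i => ?_) i <;> simp [jm]
      map_smul' := by
        intro c z
        ext i
        refine Fin.addCases (fun i => ?_) (fun i => ?_) i <;> simp [jm] }

/-- the inclusion of the first block -/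
noncomputable def in1 (a b : ℕ) : EE a →L[ℝ] EE (a + b) :=
  LinearMap.toContinuousLinearMap
    { toFun := fun y => jm a b y 0
      map_add' := by
        intro z z'
        ext i
        refine Fin.addCases (fun i => ?_) (fun i => ?_) i <;> simp [jm]
      map_smul' := by
        intro c z
        ext i
        refine Fin.addCases (fun i => ?_) (fun i => ?_) i <;> simp [jm] }

theorem blk2 (hJB : T_JB) (a b : ℕ) :
    Blk (fun i : Fin b => Fin.natAdd a i) (p2 a b) (fun x z => jm a b (p1 a b x) z) (in2 a b) where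
  jp x := (hJB a b).2.2.2.2.2.1 x
  co x z i := by simp [jm]
  ad x z := by
    ext i
    change (jm a b (p1 a b x) z) i = (jm a b (p1 a b x) 0 + jm a b 0 z) i
    refine Fin.addCases (fun i => ?_) (fun i => ?_) i <;> simp [jm]
  io j := by
    ext i
    change (jm a b 0 (EuclideanSpace.single j 1)) i = _
    refine Fin.addCases (fun i => ?_) (fun i => ?_) i
    · have h : Fin.castAdd b i ≠ Fin.natAdd a j := by
        intro h
        have := congrArg Fin.val h
        simp at this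
        omega
      simp [jm, h]
    · simp [jm]
  mP := (hJB a b).2.2.2.1.measurable
  mJ := by
    have h1 : Measurable fun q : EE (a + b) × EE b => (p1 a b q.1, q.2) :=
      ((hJB a b).2.2.1.measurable.comp measurable_fst).prodMk measurable_snd
    exact (hJB a b).2.1.measurable.comp h1

theorem blk1 (hJB : T_JB) (a b : ℕ) :
    Blk (fun i : Fin a => Fin.castAdd b i) (p1 a b) (fun x z => jm a b z (p2 a b x)) (in1 a b) where
  jp x := (hJB a b).2.2.2.2.2.1 x
  co x z i := by simp [jm]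
  ad x z := by
    ext i
    change (jm a b z (p2 a b x)) i = (jm a b 0 (p2 a b x) + jm a b z 0) i
    refine Fin.addCases (fun i => ?_) (fun i => ?_) i <;> simp [jm]
  io j := by
    ext i
    change (jm a b (EuclideanSpace.single j 1) 0) i = _
    refine Fin.addCases (fun i => ?_) (fun i => ?_) i
    · simp [jm]
    · have h : Fin.natAdd a i ≠ Fin.castAdd b j := by
        intro h
        have := congrArg Fin.val h
        simp at this
        omega
      simp [jm, h]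
  mP := (hJB a b).2.2.1.measurable
  mJ := by
    have h1 : Measurable fun q : EE (a + b) × EE a => (q.2, p2 a b q.1) :=
      measurable_snd.prodMk ((hJB a b).2.2.2.1.measurable.comp measurable_fst)
    exact (hJB a b).2.1.measurable.comp h1

/-- AD2; besides the hypotheses of the board, `T_AM1` and `T_AM2` -/
theorem pf_ad2 (hJB : T_JB) (hZP : T_ZP) (hZN : T_ZN) (hZB : T_ZB) (hAM1 : T_AM1)
    (hAM2 : T_AM2) : T_AD2 := by
  intro a b p ha hb hp
  have hp0 : 0 ≤ p := by linarith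
  have hc : ∀ m : ℕ, (Fintype.card (Fin m × Fin m) : ℝ≥0∞) ^ p =
      (((Fintype.card (Fin m × Fin m) : ℝ≥0) ^ p : ℝ≥0) : ℝ≥0∞) := by
    intro m
    rw [ENNReal.coe_rpow_of_nonneg _ hp0, ENNReal.coe_natCast]
  refine ⟨(Fintype.card (Fin a × Fin a) : ℝ≥0) ^ p + (Fintype.card (Fin b × Fin b) : ℝ≥0) ^ p, ?_⟩
  intro L f hL
  constructor
  · have h := AA_dist hZN hZB hZP (blk2 hJB a b) hb
      (fun g L' hL' hg => (hAM2 a b L' hb hL').2.2.1 g 1 hg le_rfl) f hL hp
    refine h.trans ?_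
    rw [hc]
    gcongr
    exact le_add_self
  · have h := AA_dist hZN hZB hZP (blk1 hJB a b) ha
      (fun g L' hL' hg => (hAM1 a b L' ha hL').2.2.1 g 1 hg le_rfl) f hL hp
    refine h.trans ?_
    rw [hc]
    gcongr
    exact le_self_add

end Pool.Agent.H51.BR
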