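import Pool.Agent.H93.AR.TargetsE

/-!
# Great circle arcs and the generators of the rotations (for board br_modules, module AD2)
-/

set_option autoImplicit false

namespace Pool.Agent.H51.BR

open MeasureTheory Set FourierTransform Pool.Agent.H83.LS Pool.Agent.H54.LS Pool.Agent.H93.AR
  Pool.Agent.H83.AR Pool.Agent.H84.BR
open scoped ENNReal NNReal SchwartzMap

/-- the unit vector of direction `v` -/
noncomputable def unt {m : ℕ} (v : EE m) : EE m := ‖v‖⁻¹ • v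

theorem norm_unt {m : ℕ} {v : EE m} (h : v ≠ 0) : ‖unt v‖ = 1 := by
  rw [unt, norm_smul, norm_inv, norm_norm, inv_mul_cancel₀ (norm_ne_zero_iff.2 h)]

theorem arc_norm {m : ℕ} {u y : EE m} {s L : ℝ} (hu : ‖u‖ = 1) (hL : 1 ≤ L)
    (hy : ‖y‖ ≤ 1 / (2 * L)) (hs : s ∈ Icc (0 : ℝ) 1) : 1 / 2 ≤ ‖u + s • y‖ := by
  have h1 : ‖s • y‖ ≤ 1 / 2 := by
    rw [norm_smul, Real.norm_of_nonneg hs.1]
    have h2 : 1 / (2 * L) ≤ 1 / 2 := by
      apply one_div_le_one_div_of_le <;> linarith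
    calc s * ‖y‖ ≤ 1 * (1 / 2) := mul_le_mul hs.2 (hy.trans h2) (norm_nonneg _) zero_le_one
      _ = 1 / 2 := one_mul _
  have h3 : ‖u‖ ≤ ‖u + s • y‖ + ‖s • y‖ := by
    have := norm_sub_le (u + s • y) (s • y)
    simpa using this
  linarith

/-- derivative of the arc -/
theorem arc_deriv {m : ℕ} {u y : EE m} {s L : ℝ} (hu : ‖u‖ = 1) (hL : 1 ≤ L)
    (hy : ‖y‖ ≤ 1 / (2 * L)) (hs : s ∈ Icc (0 : ℝ) 1) :
    ∃ c' : EE m, HasDerivAt (fun s : ℝ => unt (u + s • y)) c' s ∧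
      inner ℝ (unt (u + s • y)) c' = 0 ∧ ‖c'‖ ≤ 1 / L := by
  set v : EE m := u + s • y with hv
  have hn := arc_norm hu hL hy hs
  rw [← hv] at hn
  have hpos : 0 < ‖v‖ := by linarith
  have hv0 : v ≠ 0 := norm_pos_iff.1 hpos
  have hd : HasDerivAt (fun s : ℝ => u + s • y) y s := by
    have := ((hasDerivAt_id s).smul_const y).const_add u
    simpa using this
  have hsq : HasDerivAt (fun s : ℝ => ‖u + s • y‖ ^ 2) (2 * inner ℝ v y) s := hd.norm_sq
  have hnm : HasDerivAt (fun s : ℝ => ‖u + s • y‖) (inner ℝ v y / ‖v‖) s := by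
    have h1 := hsq.sqrt (by positivity : ‖u + s • y‖ ^ 2 ≠ 0)
    have h2 : (fun s : ℝ => √(‖u + s • y‖ ^ 2)) = fun s : ℝ => ‖u + s • y‖ := by
      funext t
      exact Real.sqrt_sq (norm_nonneg _)
    rw [h2] at h1
    refine h1.congr_deriv ?_
    rw [Real.sqrt_sq (norm_nonneg _), ← hv]
    field_simp
  have hinv := hnm.inv (by rw [← hv]; exact hpos.ne')
  have hc : HasDerivAt (fun s : ℝ => unt (u + s • y))
      (‖v‖⁻¹ • y + (-(inner ℝ v y / ‖v‖) / ‖v‖ ^ 2) • v) s := hinv.smul hd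
  refine ⟨_, hc, ?_, ?_⟩
  · rw [unt]
    simp only [inner_add_right, inner_smul_left, inner_smul_right, real_inner_self_eq_norm_sq]
    simp only [RCLike.conj_to_real]
    field_simp
    ring
  · have e1 : (‖v‖⁻¹ • y + (-(inner ℝ v y / ‖v‖) / ‖v‖ ^ 2) • v) =
        ‖v‖⁻¹ • (y - inner ℝ (unt v) y • unt v) := by
      rw [unt, inner_smul_left, smul_sub, smul_smul, smul_smul]
      simp only [RCLike.conj_to_real]
      rw [sub_eq_add_neg, ← neg_smul]
      congr 2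
      field_simp
    have e2 : ‖y - inner ℝ (unt v) y • unt v‖ ≤ ‖y‖ := by
      have h3 : ‖y - inner ℝ (unt v) y • unt v‖ ^ 2 ≤ ‖y‖ ^ 2 := by
        rw [norm_sub_sq_real, inner_smul_right, norm_smul, norm_unt hv0, mul_one,
          real_inner_comm (unt v) y]
        have h4 : ‖(inner ℝ (unt v) y : ℝ)‖ ^ 2 = (inner ℝ (unt v) y : ℝ) ^ 2 := by
          rw [Real.norm_eq_abs, sq_abs]
        rw [h4]
        nlinarith [sq_nonneg (inner ℝ (unt v) y : ℝ)]
      exact le_of_sq_le_sq h3 (norm_nonneg _)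
    rw [e1, norm_smul, norm_inv, norm_norm]
    calc ‖v‖⁻¹ * ‖y - inner ℝ (unt v) y • unt v‖ ≤ 2 * (1 / (2 * L)) := by
          refine mul_le_mul ?_ (e2.trans hy) (norm_nonneg _) (by norm_num)
          rw [inv_le_comm₀ hpos (by norm_num)]
          linarith
      _ = 1 / L := by field_simp

/-- a derivative along the circle in terms of the generators of rotations -/
theorem deriv_rot {d m : ℕ} (σ : Fin m → Fin d) (ι : EE m →L[ℝ] EE d)
    (hι : ∀ j, ι (EuclideanSpace.single j 1) = EuclideanSpace.single (σ j) 1)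
    (f : EE d → ℂ) (X : EE d) (r : ℝ) (c c' : EE m) (hX : ∀ i, X (σ i) = r * c i)
    (hc : ‖c‖ = 1) (hcc : inner ℝ c c' = 0) :
    fderiv ℝ f X (ι (r • c')) =
      ∑ i, ∑ j, ((c i * c' j : ℝ) : ℂ) * rotd (σ i) (σ j) f X := by
  have hsum : ∀ z : EE m, z = ∑ j, z j • (EuclideanSpace.single j (1 : ℝ)) := by
    intro z
    have := (EuclideanSpace.basisFun (Fin m) ℝ).sum_repr z
    simpa using this.symm
  have h1 : fderiv ℝ f X (ι (r • c')) =
      ∑ j, ((r * c' j : ℝ) : ℂ) * fderiv ℝ f X (EuclideanSpace.single (σ j) 1) := by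
    conv_lhs => rw [hsum (r • c')]
    rw [map_sum, map_sum]
    refine Finset.sum_congr rfl fun j _ => ?_
    rw [map_smul, map_smul, hι]
    simp
  have hc2 : ∑ i, (c i * c i : ℝ) = 1 := by
    have := EuclideanSpace.norm_sq_eq c
    rw [hc] at this
    simp only [Real.norm_eq_abs, sq_abs] at this
    rw [← one_pow 2, this]
    exact Finset.sum_congr rfl fun i _ => by ring
  have hcc2 : ∑ i, (c i * c' i : ℝ) = 0 := by
    rw [← hcc, PiLp.inner_apply]
    exact Finset.sum_congr rfl fun i _ => by simp [mul_comm]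
  rw [h1]
  have h2 : ∑ i, ∑ j, ((c i * c' j : ℝ) : ℂ) * rotd (σ i) (σ j) f X =
      (∑ j, ((r * c' j : ℝ) : ℂ) * fderiv ℝ f X (EuclideanSpace.single (σ j) 1)) *
        ((∑ i, (c i * c i : ℝ) : ℝ) : ℂ) -
      (∑ i, ((r * c i : ℝ) : ℂ) * fderiv ℝ f X (EuclideanSpace.single (σ i) 1)) *
        ((∑ j, (c j * c' j : ℝ) : ℝ) : ℂ) := by
    rw [Complex.ofReal_sum, Complex.ofReal_sum, Finset.sum_mul_sum, Finset.sum_mul_sum,
      Finset.sum_comm (s := Finset.univ) (t := Finset.univ)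
        (f := fun j i => ((r * c' j : ℝ) : ℂ) * fderiv ℝ f X (EuclideanSpace.single (σ j) 1) *
          ((c i * c i : ℝ) : ℂ)), ← Finset.sum_sub_distrib]
    refine Finset.sum_congr rfl fun i _ => ?_
    rw [← Finset.sum_sub_distrib]
    refine Finset.sum_congr rfl fun j _ => ?_
    rw [rotd, hX, hX]
    push_cast
    ring
  rw [h2, hc2, hcc2]
  simp

theorem deriv_rot_le {d m : ℕ} (σ : Fin m → Fin d) (ι : EE m →L[ℝ] EE d)
    (hι : ∀ j, ι (EuclideanSpace.single j 1) = EuclideanSpace.single (σ j) 1)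
    (f : EE d → ℂ) (X : EE d) (r L : ℝ) (c c' : EE m) (hX : ∀ i, X (σ i) = r * c i)
    (hc : ‖c‖ = 1) (hcc : inner ℝ c c' = 0) (hL : ‖c'‖ ≤ 1 / L) :
    ‖fderiv ℝ f X (ι (r • c'))‖ ≤ 1 / L * ∑ i, ∑ j, ‖rotd (σ i) (σ j) f X‖ := by
  rw [deriv_rot σ ι hι f X r c c' hX hc hcc, Finset.mul_sum]
  refine (norm_sum_le _ _).trans (Finset.sum_le_sum fun i _ => ?_)
  rw [Finset.mul_sum]
  refine (norm_sum_le _ _).trans (Finset.sum_le_sum fun j _ => ?_)
  rw [norm_mul, Complex.norm_real, norm_mul]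
  refine mul_le_mul_of_nonneg_right ?_ (norm_nonneg _)
  have h1 : ‖c i‖ ≤ 1 := by rw [← hc]; exact PiLp.norm_apply_le c i
  have h2 : ‖c' j‖ ≤ 1 / L := (PiLp.norm_apply_le c' j).trans hL
  calc ‖c i‖ * ‖c' j‖ ≤ 1 * (1 / L) := mul_le_mul h1 h2 (norm_nonneg _) zero_le_one
    _ = 1 / L := one_mul _

end Pool.Agent.H51.BR
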