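import Pool.Agent.H93.AR.Defs

/-!
# Fourier transform of a compactly supported function with bounded derivatives
(board br_modules, module DK)
-/

set_option autoImplicit false

namespace Pool.Agent.H51.BR

open MeasureTheory Set FourierTransform Pool.Agent.H93.AR Pool.Agent.H83.LS Pool.Agent.H54.LS
open scoped ENNReal NNReal

theorem mk_eq {d : ℕ} (Ψ : EE d → ℂ) (x : EE d) : MK Ψ x = 𝓕 Ψ (-x) := by
  rw [Real.fourier_eq']
  unfold MK e
  congr 1
  funext ξ
  rw [smul_eq_mul, inner_neg_right, real_inner_comm]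
  congr 2
  push_cast
  ring

theorem pf_dk : T_DK := by
  intro d N r
  set V : ℝ := (volume (Metric.closedBall (0 : EE d) r)).toReal with hV
  refine ⟨N, 2 ^ (N - 1) * (V + 2 ^ N * ((N + 1 : ℕ) * V)), ?_⟩
  intro B Ψ hs h0 hB x
  have hts : tsupport Ψ ⊆ Metric.closedBall (0 : EE d) r := by
    refine closure_minimal ?_ Metric.isClosed_closedBall
    intro y hy
    rw [mem_closedBall_zero_iff]
    by_contra hr
    exact hy (h0 y (not_le.1 hr))
  have hcs : HasCompactSupport Ψ :=
    (isCompact_closedBall (0 : EE d) r).of_isClosed_subset (isClosed_tsupport Ψ) hts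
  have hcont : ∀ k : ℕ, Continuous fun v => iteratedFDeriv ℝ k Ψ v := fun k =>
    hs.continuous_iteratedFDeriv (by exact_mod_cast le_top)
  have hint : ∀ k n : ℕ, Integrable (fun v => ‖v‖ ^ k * ‖iteratedFDeriv ℝ n Ψ v‖) := by
    intro k n
    refine Continuous.integrable_of_hasCompactSupport
      ((continuous_norm.pow k).mul (hcont n).norm) ?_
    have := hcs.iteratedFDeriv (𝕜 := ℝ) n
    exact (this.norm).mul_left
  have hbd : ∀ n ≤ N, ∫ v, ‖iteratedFDeriv ℝ n Ψ v‖ ≤ B * V := by
    intro n hn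
    have hfin : volume (Metric.closedBall (0 : EE d) r) ≠ ⊤ :=
      (isCompact_closedBall (0 : EE d) r).measure_lt_top.ne
    have hgi : Integrable (Set.indicator (Metric.closedBall (0 : EE d) r) fun _ => B) :=
      (integrable_indicator_iff Metric.isClosed_closedBall.measurableSet).2
        (integrableOn_const hfin)
    have hle : ∫ v, ‖iteratedFDeriv ℝ n Ψ v‖ ≤
        ∫ v, Set.indicator (Metric.closedBall (0 : EE d) r) (fun _ => B) v := by
      refine integral_mono ?_ hgi ?_
      · have := hint 0 n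
        simpa using this
      · intro v
        by_cases hv : v ∈ Metric.closedBall (0 : EE d) r
        · simp only [Set.indicator_of_mem hv]
          exact hB n hn v
        · simp only [Set.indicator_of_notMem hv]
          have : iteratedFDeriv ℝ n Ψ v = 0 := by
            by_contra h
            exact hv (hts (support_iteratedFDeriv_subset n h))
          rw [this, norm_zero]
    refine hle.trans (le_of_eq ?_)
    rw [integral_indicator Metric.isClosed_closedBall.measurableSet, setIntegral_const, smul_eq_mul,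
      mul_comm, hV]
    rfl
  have key : ∀ n ≤ N, ‖-x‖ ^ n * ‖𝓕 Ψ (-x)‖ ≤ 2 ^ n * ((n + 1 : ℕ) * (B * V)) := by
    intro n hn
    have h := Real.pow_mul_norm_iteratedFDeriv_fourier_le (K := 0) (N := N) (f := Ψ)
      (hs.of_le (by exact_mod_cast le_top)) (fun k n _ _ => hint k n) (k := 0) (n := n)
      (le_refl _) (by exact_mod_cast hn) (-x)
    rw [norm_iteratedFDeriv_zero] at h
    refine h.trans ?_
    rw [pow_zero, one_mul]
    have : (2 * ((0 : ℕ) : ℝ) + 2) ^ n = 2 ^ n := by simp
    rw [this]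
    refine mul_le_mul_of_nonneg_left ?_ (by positivity)
    calc ∑ p ∈ Finset.range (0 + 1) ×ˢ Finset.range (n + 1),
          ∫ v, ‖v‖ ^ p.1 * ‖iteratedFDeriv ℝ p.2 Ψ v‖
        ≤ ∑ p ∈ Finset.range (0 + 1) ×ˢ Finset.range (n + 1), B * V := by
          refine Finset.sum_le_sum fun p hp => ?_
          rw [Finset.mem_product, Finset.mem_range, Finset.mem_range] at hp
          have h1 : p.1 = 0 := by omega
          have h2 := hbd p.2 (by omega)
          simpa [h1] using h2
      _ = (n + 1 : ℕ) * (B * V) := by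
          rw [Finset.sum_const, Finset.card_product, Finset.card_range, Finset.card_range,
            nsmul_eq_mul]
          norm_num
  have k0 := key 0 (Nat.zero_le N)
  have kN := key N le_rfl
  rw [norm_neg] at k0 kN
  have hp := add_pow_le (zero_le_one (α := ℝ)) (norm_nonneg x) N
  rw [mk_eq]
  calc ‖𝓕 Ψ (-x)‖ * (1 + ‖x‖) ^ N
      ≤ ‖𝓕 Ψ (-x)‖ * (2 ^ (N - 1) * (1 ^ N + ‖x‖ ^ N)) :=
        mul_le_mul_of_nonneg_left hp (norm_nonneg _)
    _ = 2 ^ (N - 1) * (‖x‖ ^ 0 * ‖𝓕 Ψ (-x)‖ + ‖x‖ ^ N * ‖𝓕 Ψ (-x)‖) := by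
        rw [one_pow, pow_zero]; ring
    _ ≤ 2 ^ (N - 1) * (2 ^ 0 * ((0 + 1 : ℕ) * (B * V)) + 2 ^ N * ((N + 1 : ℕ) * (B * V))) :=
        mul_le_mul_of_nonneg_left (add_le_add k0 kN) (by positivity)
    _ = 2 ^ (N - 1) * (V + 2 ^ N * ((N + 1 : ℕ) * V)) * B := by
        push_cast
        ring

end Pool.Agent.H51.BR
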